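import Mathlib

/-!
# The statements of the parts

Project SD (MP_c671ed_lc): the class of the subdirect products of division rings is not
axiomatizable.
-/

set_option autoImplicit false

namespace Pool.Agent.Y544.SD

open FirstOrder FirstOrder.Language

/-- J1: a noncommutative division ring which is an algebra over the complex numbers -/
def S_div : Prop := ∃ (D : Type) (_ : DivisionRing D) (_ : Algebra ℂ D), ∃ a b : D, a * b ≠ b * a

/-- J2: the division rings which are images of countably generated complex algebras are
commutative -/
def S_comm : Prop := ∀ (R : Type) [Ring R] [Algebra ℂ R] (E : Type) [DivisionRing E]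
  (ψ : R →+* E) (x : ℕ → R), Function.Surjective ψ → Algebra.adjoin ℂ (Set.range x) = ⊤ →
  ∀ a b : E, a * b = b * a

/-- J3: elementary equivalence of the values at infinite sets of a functor on the injections for
which every element comes from a finite set -/
def S_elem : Prop := ∀ (L : FirstOrder.Language.{0, 0}) (S : Type → Type) [∀ X, L.Structure (S X)]
  (m : ∀ X Y : Type, (X ↪ Y) → (S X ↪[L] S Y)),
  (∀ (X Y Z : Type) (a : X ↪ Y) (b : Y ↪ Z) (s : S X), m X Z (a.trans b) s = m Y Z b (m X Y a s)) →
  (∀ (X : Type) (s : S X), ∃ (N : ℕ) (a : Fin N ↪ X) (t : S (Fin N)), m (Fin N) X a t = s) →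
  ∀ (X Y : Type) [Infinite X] [Infinite Y], S X ≅[L] S Y

end Pool.Agent.Y544.SD
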